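import Pool.Agent.helper86.OF.SpecM

/-!
# Module CKP (helper61): the first phase of the core theorem
-/

open scoped BigOperators

namespace Pool.Agent.OF

noncomputable section

open Classical

/-- The edges of the colours at least `k`. -/
def CKP_E0 {V : Type} (K : SimpleGraph V) (c : Sym2 V → ℕ) (k : ℕ) : SimpleGraph V where
  Adj v w := K.Adj v w ∧ k ≤ c s(v, w)
  symm := ⟨fun v w h => ⟨h.1.symm, by rw [Sym2.eq_swap]; exact h.2⟩⟩
  loopless := ⟨fun v h => K.loopless.irrefl v h.1⟩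

theorem CKP_in {V : Type} [Fintype V] (G : SimpleGraph V) (A : Finset V) (v : V) (hv : v ∈ A) :
    dg (innerG G A) v = dgs G A v ∧ dg (crossG G A) v = dgs G Aᶜ v := by
  constructor
  · show (Finset.univ.filter fun w => (innerG G A).Adj v w).card =
      (A.filter fun w => G.Adj v w).card
    congr 1
    ext w
    simp only [Finset.mem_filter, Finset.mem_univ, true_and]
    exact ⟨fun h => ⟨h.2.1 hv, h.1⟩, fun h => ⟨h.2, ⟨fun _ => h.1, fun _ => hv⟩⟩⟩
  · show (Finset.univ.filter fun w => (crossG G A).Adj v w).card =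
      (Aᶜ.filter fun w => G.Adj v w).card
    congr 1
    ext w
    simp only [Finset.mem_filter, Finset.mem_univ, true_and, Finset.mem_compl]
    exact ⟨fun h => ⟨fun hw => h.2 ⟨fun _ => hw, fun _ => hv⟩, h.1⟩,
      fun h => ⟨h.2, fun h' => h.1 (h'.1 hv)⟩⟩

theorem CKP_out {V : Type} [Fintype V] (G : SimpleGraph V) (A : Finset V) (v : V) (hv : v ∉ A) :
    dg (innerG G A) v = dgs G Aᶜ v ∧ dg (crossG G A) v = dgs G A v := by
  constructor
  · show (Finset.univ.filter fun w => (innerG G A).Adj v w).card =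
      (Aᶜ.filter fun w => G.Adj v w).card
    congr 1
    ext w
    simp only [Finset.mem_filter, Finset.mem_univ, true_and, Finset.mem_compl]
    exact ⟨fun h => ⟨fun hw => hv (h.2.2 hw), h.1⟩,
      fun h => ⟨h.2, ⟨fun h' => absurd h' hv, fun h' => absurd h' h.1⟩⟩⟩
  · show (Finset.univ.filter fun w => (crossG G A).Adj v w).card =
      (A.filter fun w => G.Adj v w).card
    congr 1
    ext w
    simp only [Finset.mem_filter, Finset.mem_univ, true_and]
    refine ⟨fun h => ⟨?_, h.1⟩, fun h => ⟨h.2, fun h' => hv (h'.2 h.1)⟩⟩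
    by_contra hw
    exact h.2 ⟨fun h' => absurd h' hv, fun h' => absurd h' hw⟩

theorem CKP_sum {V : Type} [Fintype V] (G : SimpleGraph V) (A : Finset V) (v : V) :
    dgs G A v + dgs G Aᶜ v = dg G v := by
  show (A.filter fun w => G.Adj v w).card + (Aᶜ.filter fun w => G.Adj v w).card =
    (Finset.univ.filter fun w => G.Adj v w).card
  rw [← Finset.card_union_of_disjoint, ← Finset.filter_union, Finset.union_compl]
  exact Finset.disjoint_filter_filter disjoint_compl_right

/-- The inner and the cross degrees. -/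
theorem CKP_degs {V : Type} [Fintype V] (G : SimpleGraph V) (A X : Finset V) (q f : ℕ)
    (H : ℕ → Finset V) (h : V → ℕ) (ε ζ θ : ℝ) (U : ℕ) (hG : CoreH G A X q f H h ε ζ θ U)
    (x : V) (hx : x ∈ X) :
    (dg (innerG G A) x : ℝ) ≤ ((q + f : ℕ) : ℝ) / 2 + θ * Fintype.card V ∧
    ((q + f : ℕ) : ℝ) / 2 - 3 / 2 * (θ * Fintype.card V) ≤ dg (innerG G A) x ∧
    ((q + f : ℕ) : ℝ) / 2 - 3 / 2 * (θ * Fintype.card V) ≤ dg (crossG G A) x ∧
    ((q + f : ℕ) : ℝ) - 2 * (θ * Fintype.card V) ≤ dg G x := by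
  have h1 : (((dg G x + ((Finset.range q).filter fun i => x ∈ H i).card + h x : ℕ)) : ℝ) =
      ((q + f : ℕ) : ℝ) := by rw [hG.deg x hx]
  push_cast at h1 ⊢
  obtain ⟨h2, h3⟩ := hG.lit x hx
  have h4 := hG.spl x hx
  have h5 : ((dgs G A x + dgs G Aᶜ x : ℕ) : ℝ) = dg G x := by rw [CKP_sum]
  push_cast at h5
  obtain ⟨h6, h7⟩ := abs_le.1 h4
  have h8 : (0 : ℝ) ≤ (((Finset.range q).filter fun i => x ∈ H i).card : ℝ) := Nat.cast_nonneg _
  have h9 : (0 : ℝ) ≤ (h x : ℝ) := Nat.cast_nonneg _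
  have h10 : 0 ≤ θ * (Fintype.card V : ℝ) := h9.trans h3
  by_cases hA : x ∈ A
  · obtain ⟨e1, e2⟩ := CKP_in G A x hA
    rw [e1, e2]
    refine ⟨?_, ?_, ?_, ?_⟩ <;> linarith
  · obtain ⟨e1, e2⟩ := CKP_out G A x hA
    rw [e1, e2]
    refine ⟨?_, ?_, ?_, ?_⟩ <;> linarith

/-- The reserve has bounded degrees. -/
theorem CKP_E0d {V : Type} [Fintype V] (K : SimpleGraph V) (c : Sym2 V → ℕ) (k k1 : ℕ)
    (hc : PEC K k1 c) (v : V) : dg (CKP_E0 K c k) v ≤ k1 - k := by
  show (Finset.univ.filter fun w => (CKP_E0 K c k).Adj v w).card ≤ _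
  rw [← Nat.card_Ico]
  refine Finset.card_le_card_of_injOn (fun w => c s(v, w)) ?_ ?_
  · intro w hw
    have hw1 : (CKP_E0 K c k).Adj v w := (Finset.mem_filter.1 hw).2
    exact Finset.mem_coe.2 (Finset.mem_Ico.2 ⟨hw1.2, hc.1 v w hw1.1⟩)
  · intro w hw w' hw' e
    have hw1 : (CKP_E0 K c k).Adj v w := (Finset.mem_filter.1 hw).2
    have hw2 : (CKP_E0 K c k).Adj v w' := (Finset.mem_filter.1 hw').2
    exact hc.2 v w w' hw1.1 hw2.1 e

/-- The reserve has many edges. -/
theorem CKP_E0e {V : Type} [Fintype V] (K : SimpleGraph V) (c : Sym2 V → ℕ) (k k1 : ℕ)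
    (P : Finset V) (hK : ∀ v ∈ P, ∀ w, K.Adj v w → w ∈ P) (L : ℝ)
    (hL : ∀ i, k ≤ i → i < k1 → L ≤ ((P.filter fun v => has K c v i).card : ℝ)) :
    ((k1 - k : ℕ) : ℝ) * L ≤ ep (CKP_E0 K c k) P P := by
  have h1 : ∀ v ∈ P, ((Finset.Ico k k1).filter fun i => has K c v i).card ≤
      dgs (CKP_E0 K c k) P v := by
    intro v hv
    show _ ≤ (P.filter fun w => (CKP_E0 K c k).Adj v w).card
    refine le_trans ?_ (Finset.card_image_le (f := fun w => c s(v, w)))
    refine Finset.card_le_card fun i hi => ?_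
    obtain ⟨hi1, w, hw, hwi⟩ := Finset.mem_filter.1 hi
    refine Finset.mem_image.2 ⟨w, Finset.mem_filter.2 ⟨hK v hv w hw, hw, ?_⟩, hwi⟩
    rw [hwi]
    exact (Finset.mem_Ico.1 hi1).1
  have h2 : ∑ v ∈ P, ((Finset.Ico k k1).filter fun i => has K c v i).card =
      ∑ i ∈ Finset.Ico k k1, (P.filter fun v => has K c v i).card := by
    simp only [Finset.card_filter]
    exact Finset.sum_comm
  have h3 : ∑ i ∈ Finset.Ico k k1, (P.filter fun v => has K c v i).card ≤
      ep (CKP_E0 K c k) P P := by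
    rw [← h2]
    exact Finset.sum_le_sum h1
  have h4 : ((k1 - k : ℕ) : ℝ) * L ≤
      ∑ i ∈ Finset.Ico k k1, ((P.filter fun v => has K c v i).card : ℝ) := by
    rw [← Nat.card_Ico, ← nsmul_eq_mul]
    exact Finset.card_nsmul_le_sum _ _ _ fun i hi =>
      hL i (Finset.mem_Ico.1 hi).1 (Finset.mem_Ico.1 hi).2
  refine h4.trans ?_
  exact_mod_cast h3

theorem CKP_ptn {V : Type} {G : SimpleGraph V} {k : ℕ} {c : Sym2 V → ℕ} (h : PEC G k c)
    {v w : V} (hvw : G.Adj v w) : ptn G c (c s(v, w)) v = w := by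
  have h1 : ∃ u, G.Adj v u ∧ c s(v, u) = c s(v, w) := ⟨w, hvw, rfl⟩
  show (if h : ∃ u, G.Adj v u ∧ c s(v, u) = c s(v, w) then h.choose else v) = w
  rw [dif_pos h1]
  exact h.2 v _ _ h1.choose_spec.1 hvw h1.choose_spec.2

theorem CKP_ptn' {V : Type} (G : SimpleGraph V) (c : Sym2 V → ℕ) (i : ℕ) (v : V) :
    ptn G c i v = v ∨ G.Adj v (ptn G c i v) := by
  by_cases h : ∃ u, G.Adj v u ∧ c s(v, u) = i
  · right
    show G.Adj v (if h : ∃ u, G.Adj v u ∧ c s(v, u) = i then h.choose else v)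
    rw [dif_pos h]
    exact h.choose_spec.1
  · left
    show (if h : ∃ u, G.Adj v u ∧ c s(v, u) = i then h.choose else v) = v
    rw [dif_neg h]

/-- The inner degrees after the first phase. -/
theorem CKP_inn {V : Type} [Fintype V] (G : SimpleGraph V) (A : Finset V) (k k1 : ℕ)
    (c : Sym2 V → ℕ) (M : ℕ → V → V) (hc : PEC (innerG G A) k1 c) (v : V) :
    dg (innerG (remG G M (Finset.range k)) A) v ≤ (k1 - k) +
      ((Finset.range k).filter fun i => M i v ≠ ptn (innerG G A) c i v).card := by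
  have h1 : dg (innerG (remG G M (Finset.range k)) A) v ≤ ((Finset.Ico k k1) ∪
      ((Finset.range k).filter fun i => M i v ≠ ptn (innerG G A) c i v)).card := by
    show (Finset.univ.filter fun w => (innerG (remG G M (Finset.range k)) A).Adj v w).card ≤ _
    refine Finset.card_le_card_of_injOn (fun w => c s(v, w)) ?_ ?_
    · intro w hw
      have hw1 : (innerG (remG G M (Finset.range k)) A).Adj v w := (Finset.mem_filter.1 hw).2
      have hadj : (innerG G A).Adj v w := ⟨hw1.1.1, hw1.2⟩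
      have hlt := hc.1 v w hadj
      refine Finset.mem_coe.2 (Finset.mem_union.2 ?_)
      by_cases hk : c s(v, w) < k
      · right
        refine Finset.mem_filter.2 ⟨Finset.mem_range.2 hk, ?_⟩
        rw [CKP_ptn hc hadj]
        exact (hw1.1.2 _ (Finset.mem_range.2 hk)).1
      · left
        exact Finset.mem_Ico.2 ⟨not_lt.1 hk, hlt⟩
    · intro w hw w' hw' e
      have hw1 : (innerG (remG G M (Finset.range k)) A).Adj v w := (Finset.mem_filter.1 hw).2
      have hw2 : (innerG (remG G M (Finset.range k)) A).Adj v w' := (Finset.mem_filter.1 hw').2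
      exact hc.2 v w w' ⟨hw1.1.1, hw1.2⟩ ⟨hw2.1.1, hw2.2⟩ e
  refine h1.trans ((Finset.card_union_le _ _).trans ?_)
  rw [Nat.card_Ico]

/-- The cross degrees after the first phase. -/
theorem CKP_crs {V : Type} [Fintype V] (G : SimpleGraph V) (A : Finset V) (k : ℕ)
    (c : Sym2 V → ℕ) (M : ℕ → V → V) (hM : ∀ i < k, MatIn G (M i)) (v : V) :
    dg (crossG G A) v ≤ dg (crossG (remG G M (Finset.range k)) A) v +
      ((Finset.range k).filter fun i => M i v ≠ ptn (innerG G A) c i v).card := by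
  have hinv : ∀ i < k, ∀ v w, M i w = v → M i v = w := fun i hi v w h => by
    rw [← h]
    exact (hM i hi).1 w
  have hsub : (Finset.univ.filter fun w => (crossG G A).Adj v w) ⊆
      (Finset.univ.filter fun w => (crossG (remG G M (Finset.range k)) A).Adj v w) ∪
      ((Finset.range k).filter fun i => M i v ≠ ptn (innerG G A) c i v).image
        (fun i => M i v) := by
    intro w hw
    have hw1 : (crossG G A).Adj v w := (Finset.mem_filter.1 hw).2
    by_cases h : ∀ i ∈ Finset.range k, M i v ≠ w ∧ M i w ≠ v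
    · exact Finset.mem_union_left _ (Finset.mem_filter.2 ⟨Finset.mem_univ _, ⟨hw1.1, h⟩, hw1.2⟩)
    · push Not at h
      obtain ⟨i, hi, h⟩ := h
      have h2 : M i v = w := by
        by_cases h3 : M i v = w
        · exact h3
        · exact hinv i (Finset.mem_range.1 hi) v w (h h3)
      refine Finset.mem_union_right _ (Finset.mem_image.2 ⟨i, Finset.mem_filter.2 ⟨hi, ?_⟩, h2⟩)
      rw [h2]
      intro h4
      rcases CKP_ptn' (innerG G A) c i v with h5 | h5
      · rw [h5] at h4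
        rw [h4] at hw1
        exact G.loopless.irrefl v hw1.1
      · rw [← h4] at h5
        exact hw1.2 h5.2
  calc dg (crossG G A) v ≤ _ := Finset.card_le_card hsub
    _ ≤ _ := Finset.card_union_le _ _
    _ ≤ _ := Nat.add_le_add_left Finset.card_image_le _

/-- The number of the vertices of a part at which a colour is present. -/
theorem CKP_has {V : Type} [Fintype V] (K : SimpleGraph V) (c : Sym2 V → ℕ) (X P : Finset V)
    (hP : P ⊆ X) (i : ℕ) :
    P.card ≤ (P.filter fun v => has K c v i).card + mis K c X i := by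
  have h1 := Finset.card_filter_add_card_filter_not (s := P) (fun v => has K c v i)
  have h2 : (P.filter fun v => ¬ has K c v i).card ≤ mis K c X i :=
    Finset.card_le_card (Finset.filter_subset_filter _ hP)
  omega

/-- The sizes of the two parts. -/
theorem CKP_siz {V : Type} [Fintype V] (A X : Finset V) (U : ℕ)
    (hU : |((X ∩ A).card : ℝ) - (X \ A).card| ≤ U) :
    ((X ∩ A).card : ℝ) ≤ (Fintype.card V : ℝ) / 2 + U / 2 ∧
    ((X \ A).card : ℝ) ≤ (Fintype.card V : ℝ) / 2 + U / 2 ∧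
    (X.card : ℝ) / 2 - U / 2 ≤ ((X ∩ A).card : ℝ) ∧
    (X.card : ℝ) / 2 - U / 2 ≤ ((X \ A).card : ℝ) := by
  have h1 : (X ∩ A).card + (X \ A).card = X.card := Finset.card_inter_add_card_sdiff X A
  have h2 : ((X ∩ A).card : ℝ) + (X \ A).card = X.card := by exact_mod_cast h1
  have h3 : (X.card : ℝ) ≤ Fintype.card V := by exact_mod_cast Finset.card_le_univ X
  obtain ⟨h4, h5⟩ := abs_le.1 hU
  refine ⟨?_, ?_, ?_, ?_⟩ <;> linarith

theorem CKP (hViz : VIZ_stmt) (hBav : BAV_stmt) (hScn : SCN_stmt) (hAln : ALN_stmt)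
    (hKpa : KPA_stmt) : CKP_stmt := by
  intro ε ζ θ' hε hζ hθ'
  obtain ⟨εK, hεK⟩ : ∃ εK : ℝ, εK = min (ε / 40) (1 / 100) := ⟨_, rfl⟩
  have hεK0 : 0 < εK := by rw [hεK]; exact lt_min (by linarith) (by norm_num)
  have hεK1 : εK ≤ ε / 40 := by rw [hεK]; exact min_le_left _ _
  have hεK2 : εK ≤ 1 / 100 := by rw [hεK]; exact min_le_right _ _
  obtain ⟨θK, hθK⟩ : ∃ θK : ℝ, θK = min (θ' / 2) εK := ⟨_, rfl⟩
  have hθK0 : 0 < θK := by rw [hθK]; exact lt_min (by linarith) hεK0
  have hθK1 : θK ≤ θ' / 2 := by rw [hθK]; exact min_le_left _ _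
  have hθK2 : θK ≤ εK := by rw [hθK]; exact min_le_right _ _
  obtain ⟨δ, NK, hδ, hK⟩ := hKpa εK θK hεK0 hεK2 hθK0 hθK2
  obtain ⟨θ, hθ⟩ : ∃ θ : ℝ, θ = min (min (ε / 40) (1 / 1000)) (δ / 40) := ⟨_, rfl⟩
  have hθ0 : 0 < θ := by
    rw [hθ]; exact lt_min (lt_min (by linarith) (by norm_num)) (by linarith)
  have hθ1 : θ ≤ ε / 40 := by rw [hθ]; exact (min_le_left _ _).trans (min_le_left _ _)
  have hθ2 : θ ≤ 1 / 1000 := by rw [hθ]; exact (min_le_left _ _).trans (min_le_right _ _)
  have hθ3 : θ ≤ δ / 40 := by rw [hθ]; exact min_le_right _ _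
  refine ⟨θ, hθ0, fun U U4 => ?_⟩
  obtain ⟨NA, hA⟩ := hAln U δ hδ
  obtain ⟨B, hB⟩ : ∃ B : ℝ, B = 1000 + U / εK + U / δ + 12 / δ + 2 * (6 * U4 + 6) / θ' +
    8 * (6 * U4 + 6) := ⟨_, rfl⟩
  refine ⟨6 * U4 + 6, max (max NK NA) ⌈B⌉₊, ?_⟩
  intro V _ G A X q f H h hN hX hG
  obtain ⟨n, hn⟩ : ∃ n : ℝ, n = (Fintype.card V : ℝ) := ⟨_, rfl⟩
  have hNK : NK ≤ Fintype.card V := (le_max_left _ _).trans ((le_max_left _ _).trans hN)
  have hNA : NA ≤ Fintype.card V := (le_max_right _ _).trans ((le_max_left _ _).trans hN)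
  have hBn : B ≤ n := by
    rw [hn]
    exact (Nat.le_ceil _).trans (by exact_mod_cast (le_max_right _ _).trans hN)
  have b0 : (0 : ℝ) ≤ U / εK := by positivity
  have b1 : (0 : ℝ) ≤ U / δ := by positivity
  have b2 : (0 : ℝ) ≤ 12 / δ := by positivity
  have b3 : (0 : ℝ) ≤ 2 * (6 * (U4 : ℝ) + 6) / θ' := by positivity
  have b4 : (0 : ℝ) ≤ 8 * (6 * (U4 : ℝ) + 6) := by positivity
  have n0 : 1000 ≤ n := by linarith
  have n1 : (U : ℝ) ≤ εK * n := by
    have : (U : ℝ) / εK ≤ n := by linarith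
    rw [div_le_iff₀ hεK0] at this
    linarith
  have n2 : (U : ℝ) ≤ δ * n := by
    have : (U : ℝ) / δ ≤ n := by linarith
    rw [div_le_iff₀ hδ] at this
    linarith
  have n3 : (12 : ℝ) ≤ δ * n := by
    have : (12 : ℝ) / δ ≤ n := by linarith
    rw [div_le_iff₀ hδ] at this
    linarith
  have n4 : 2 * (6 * (U4 : ℝ) + 6) ≤ θ' * n := by
    have : 2 * (6 * (U4 : ℝ) + 6) / θ' ≤ n := by linarith
    rw [div_le_iff₀ hθ'] at this
    linarith
  have n5 : 8 * (6 * (U4 : ℝ) + 6) ≤ n := by linarith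
  have hn0 : 0 < n := by linarith
  -- products
  have p1 : θ * n ≤ ε / 40 * n := mul_le_mul_of_nonneg_right hθ1 hn0.le
  have p2 : θ * n ≤ 1 / 1000 * n := mul_le_mul_of_nonneg_right hθ2 hn0.le
  have p3 : θ * n ≤ δ / 40 * n := mul_le_mul_of_nonneg_right hθ3 hn0.le
  have p4 : εK * n ≤ ε / 40 * n := mul_le_mul_of_nonneg_right hεK1 hn0.le
  have p5 : εK * n ≤ 1 / 100 * n := mul_le_mul_of_nonneg_right hεK2 hn0.le
  have p6 : θK * n ≤ θ' / 2 * n := mul_le_mul_of_nonneg_right hθK1 hn0.le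
  have p7 : θK * n ≤ εK * n := mul_le_mul_of_nonneg_right hθK2 hn0.le
  have p8 : 0 < θ * n := by positivity
  have p9 : 0 < ε * n := by positivity
  -- the hypotheses
  have hbig := hG.big
  have hle : ((q + f : ℕ) : ℝ) ≤ n := by rw [hn]; exact_mod_cast hG.le
  have hfu := hG.fu
  have hdeg := CKP_degs G A X q f H h ε ζ θ U hG
  rw [← hn] at hbig hfu
  simp only [← hn] at hdeg
  push_cast at hle hdeg
  obtain ⟨s1, s2, s3, s4⟩ := CKP_siz A X U hG.siz
  rw [← hn] at s1 s2
  obtain ⟨D, hD⟩ : ∃ D : ℝ, D = (q : ℝ) + f := ⟨_, rfl⟩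
  rw [← hD] at hbig hle
  simp only [← hD] at hdeg
  -- the number of the classes
  obtain ⟨d, hd⟩ : ∃ d : ℕ, d = ⌊D / 2 + θ * n⌋₊ := ⟨_, rfl⟩
  have hDn : 0 ≤ D / 2 + θ * n := by linarith
  have hd1 : (d : ℝ) ≤ D / 2 + θ * n := by rw [hd]; exact Nat.floor_le hDn
  have hd2 : D / 2 + θ * n < d + 1 := by rw [hd]; exact Nat.lt_floor_add_one _
  have hdv : ∀ v, dg (innerG G A) v ≤ d := by
    intro v
    by_cases hv : v ∈ X
    · rw [hd]
      exact Nat.le_floor (hdeg v hv).1
    · have : dg (innerG G A) v = 0 := by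
        show (Finset.univ.filter fun w => (innerG G A).Adj v w).card = 0
        rw [Finset.card_eq_zero, Finset.filter_eq_empty_iff]
        intro w _ hw
        exact hv (hG.onX v w hw.1).1
      omega
  have hEC := hViz V (innerG G A) d hdv
  obtain ⟨c, hc, hmis⟩ := hBav V (innerG G A) (d + 1) X hEC
  have hsm : ((∑ x ∈ X, (d + 1 - dg (innerG G A) x) : ℕ) : ℝ) ≤ n * (5 / 2 * (θ * n) + 1) := by
    push_cast
    have e1 : ∀ x ∈ X, ((d + 1 - dg (innerG G A) x : ℕ) : ℝ) ≤ 5 / 2 * (θ * n) + 1 := by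
      intro x hx
      rw [Nat.cast_sub ((hdv x).trans (Nat.le_succ d))]
      push_cast
      have := (hdeg x hx).2.1
      linarith
    have e2 := Finset.sum_le_card_nsmul X _ _ e1
    rw [nsmul_eq_mul] at e2
    refine e2.trans (mul_le_mul_of_nonneg_right ?_ (by linarith))
    rw [hn]
    exact_mod_cast Finset.card_le_univ X
  have hmis' : ∀ i < d + 1, (mis (innerG G A) c X i : ℝ) ≤ 10 * (θ * n) + 6 := by
    intro i hi
    have e1 : (((d + 1) * mis (innerG G A) c X i : ℕ) : ℝ) ≤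
        ((∑ x ∈ X, (d + 1 - dg (innerG G A) x) + 2 * (d + 1) : ℕ) : ℝ) := by
      exact_mod_cast hmis i hi
    rw [Nat.cast_add] at e1
    push_cast at e1 hsm
    have e2 : n / 4 ≤ (d : ℝ) + 1 := by linarith
    have e3 : ((d : ℝ) + 1) * (mis (innerG G A) c X i : ℝ) ≤
        ((d : ℝ) + 1) * (10 * (θ * n) + 6) := by
      have : n * (5 / 2 * (θ * n) + 1) ≤ ((d : ℝ) + 1) * (10 * (θ * n) + 4) := by
        have : n / 4 * (10 * (θ * n) + 4) ≤ ((d : ℝ) + 1) * (10 * (θ * n) + 4) :=
          mul_le_mul_of_nonneg_right e2 (by linarith)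
        linarith
      linarith
    exact le_of_mul_le_mul_left e3 (by positivity)
  -- k
  obtain ⟨k, hk⟩ : ∃ k : ℕ, k = d + 1 - (6 * U4 + 6) := ⟨_, rfl⟩
  have hk1 : 6 * U4 + 6 ≤ d + 1 := by
    have : ((6 * U4 + 6 : ℕ) : ℝ) ≤ ((d + 1 : ℕ) : ℝ) := by
      push_cast
      linarith
    exact_mod_cast this
  have hk2 : d + 1 - k = 6 * U4 + 6 := by omega
  have hkd : k ≤ d + 1 := by omega
  have hqk : n / 8 + k ≤ q := by
    have : (k : ℝ) ≤ (d : ℝ) + 1 := by exact_mod_cast hkd
    linarith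
  have hkq : k ≤ q := by
    have : (k : ℝ) ≤ q := by linarith
    exact_mod_cast this
  have hdn : d + 1 ≤ Fintype.card V := by
    have : ((d + 1 : ℕ) : ℝ) ≤ (Fintype.card V : ℝ) := by
      rw [← hn]
      push_cast
      linarith
    exact_mod_cast this
  -- alignment
  obtain ⟨π, hπ, hc', hal⟩ := hA V (innerG G A) (d + 1) c (fun i => if i < k then H i else ∅)
    hNA hdn hc (fun i hi => by
      show (if i < k then H i else ∅).card ≤ U
      by_cases hik : i < k
      · rw [if_pos hik]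
        exact (hG.Hs i (by omega)).2.1
      · rw [if_neg hik, Finset.card_empty]
        exact Nat.zero_le _)
  obtain ⟨c', hcc⟩ : ∃ c' : Sym2 V → ℕ, c' = fun e => π (c e) := ⟨_, rfl⟩
  rw [← hcc] at hc'
  have hhas : ∀ v i, has (innerG G A) c' v i ↔ has (innerG G A) c v (π.symm i) := by
    intro v i
    constructor
    · rintro ⟨w, hw, e⟩
      refine ⟨w, hw, ?_⟩
      rw [← e, hcc]
      exact (π.symm_apply_apply _).symm
    · rintro ⟨w, hw, e⟩
      refine ⟨w, hw, ?_⟩
      rw [hcc]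
      show π (c s(v, w)) = i
      rw [e]
      exact π.apply_symm_apply _
  have hmis2 : ∀ i < d + 1, (mis (innerG G A) c' X i : ℝ) ≤ 10 * (θ * n) + 6 := by
    intro i hi
    have e1 : mis (innerG G A) c' X i = mis (innerG G A) c X (π.symm i) := by
      show (X.filter fun x => ¬ has (innerG G A) c' x i).card =
        (X.filter fun x => ¬ has (innerG G A) c x (π.symm i)).card
      congr 1
      exact Finset.filter_congr fun x _ => not_congr (hhas x i)
    rw [e1]
    refine hmis' _ ((hπ _).2 ?_)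
    rw [Equiv.apply_symm_apply]
    exact hi
  have hscn := hScn V (innerG G A) (d + 1) c' hc'
  obtain ⟨M, hM1, hM2, hM3, hM4, hM5⟩ := hK V G A X k (d + 1) c' H hNK hkd hdn hG.onX hc'
    (by rw [← hn]; linarith) (by rw [← hn]; linarith)
    (by
      intro x hx
      rw [← hn]
      have := (hdeg x hx).2.2.1
      linarith)
    (by
      intro i hi
      obtain ⟨g1, g2, g3⟩ := hG.Hs i (by omega)
      refine ⟨g1, g3, ?_, ?_⟩
      · rw [← hn]
        exact le_trans (by exact_mod_cast g2) n2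
      · rw [← hn]
        have := hmis2 i (by omega)
        linarith)
    (by
      intro x hx
      rw [← hn]
      refine ⟨?_, ?_, ?_⟩
      · have e1 := (hG.lit x hx).1
        rw [← hn] at e1
        have e2 : (((Finset.range k).filter fun i => x ∈ H i).card : ℝ) ≤
            (((Finset.range q).filter fun i => x ∈ H i).card : ℝ) := by
          exact_mod_cast Finset.card_le_card (Finset.filter_subset_filter _
            (Finset.range_subset_range.2 hkq))
        have e3 : 0 ≤ δ * n := by positivity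
        linarith
      · have e1 := hscn x
        have e2 := Finset.card_filter_add_card_filter_not (s := Finset.range (d + 1))
          (fun i => has (innerG G A) c' x i)
        rw [e1, Finset.card_range] at e2
        have e3 : (((Finset.range k).filter fun i => ¬ has (innerG G A) c' x i).card : ℝ) ≤
            (((Finset.range (d + 1)).filter fun i => ¬ has (innerG G A) c' x i).card : ℝ) := by
          exact_mod_cast Finset.card_le_card (Finset.filter_subset_filter _
            (Finset.range_subset_range.2 hkd))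
        have e4 : (dg (innerG G A) x : ℝ) +
            (((Finset.range (d + 1)).filter fun i => ¬ has (innerG G A) c' x i).card : ℝ) =
            d + 1 := by exact_mod_cast e2
        have e5 := (hdeg x hx).2.1
        linarith
      · have e1 := hal x
        rw [← hn] at e1
        refine le_trans ?_ e1
        have e2 : ((Finset.range k).filter fun i => ∃ w ∈ H i, (innerG G A).Adj x w ∧
            c' s(x, w) = i) ⊆ ((Finset.range (d + 1)).filter fun i =>
            ∃ w ∈ (if i < k then H i else ∅), (innerG G A).Adj x w ∧ π (c s(x, w)) = i) := by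
          intro i hi
          obtain ⟨h1, w, hw, h2, h3⟩ := Finset.mem_filter.1 hi
          have h4 := Finset.mem_range.1 h1
          refine Finset.mem_filter.2 ⟨Finset.mem_range.2 (by omega), w, ?_, h2, ?_⟩
          · rw [if_pos h4]
            exact hw
          · rw [hcc] at h3
            exact h3
        exact_mod_cast Finset.card_le_card e2)
  rw [← hn] at hM5
  -- sizes of the parts
  obtain ⟨x0, hx0⟩ := hX
  have hXc : n / 2 ≤ X.card := by
    have e1 := (hdeg x0 hx0).2.2.2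
    have e2 : dg G x0 ≤ X.card := by
      show (Finset.univ.filter fun w => G.Adj x0 w).card ≤ X.card
      refine Finset.card_le_card fun w hw => ?_
      exact (hG.onX x0 w (Finset.mem_filter.1 hw).2).2
    have e3 : (dg G x0 : ℝ) ≤ X.card := by exact_mod_cast e2
    linarith
  have hres : ∀ P : Finset V, P ⊆ X → (∀ v ∈ P, ∀ w, (innerG G A).Adj v w → w ∈ P) →
      (X.card : ℝ) / 2 - U / 2 ≤ (P.card : ℝ) →
      (U4 : ℝ) * n ≤ ep (CKP_E0 (innerG G A) c' k) P P := by
    intro P hPX hPc hPs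
    have e1 := CKP_E0e (innerG G A) c' k (d + 1) P hPc (n / 6) (by
      intro i hi1 hi2
      have e2 := CKP_has (innerG G A) c' X P hPX i
      have e3 : (P.card : ℝ) ≤ ((P.filter fun v => has (innerG G A) c' v i).card : ℝ) +
        mis (innerG G A) c' X i := by exact_mod_cast e2
      have e4 := hmis2 i hi2
      linarith)
    rw [hk2] at e1
    push_cast at e1
    linarith
  refine ⟨k, M, CKP_E0 (innerG G A) c' k, hkq, ?_, hM1, hM2, hM4, ?_, ?_, ?_, ?_, ?_, ?_⟩
  · rw [← hn, Nat.cast_sub hkq]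
    linarith
  · intro v
    rw [← hn]
    have e1 := CKP_inn G A k (d + 1) c' M hc' v
    rw [hk2] at e1
    have e2 : (dg (innerG (remG G M (Finset.range k)) A) v : ℝ) ≤ ((6 * U4 + 6 : ℕ) : ℝ) +
      (((Finset.range k).filter fun i => M i v ≠ ptn (innerG G A) c' i v).card : ℝ) := by
      exact_mod_cast e1
    have e3 := hM5 v
    push_cast at e2
    linarith
  · intro x hx
    rw [← hn]
    have e1 := CKP_crs G A k c' M hM1 x
    have e2 : (dg (crossG G A) x : ℝ) ≤ (dg (crossG (remG G M (Finset.range k)) A) x : ℝ) +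
      (((Finset.range k).filter fun i => M i x ≠ ptn (innerG G A) c' i x).card : ℝ) := by
      exact_mod_cast e1
    have e3 := hM5 x
    have e4 := (hdeg x hx).2.2.1
    linarith
  · intro v w hvw
    have h1 : (innerG G A).Adj v w := hvw.1
    have h2 : k ≤ c' s(v, w) := hvw.2
    refine ⟨⟨h1.1, fun i hi => ?_⟩, h1.2⟩
    have hi' := Finset.mem_range.1 hi
    constructor
    · intro e
      have e1 : M i v ≠ v := by rw [e]; exact h1.1.ne.symm
      have e2 := hM3 i hi' v e1 (by rw [e]; exact h1.2)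
      rw [e] at e2
      omega
    · intro e
      have e1 : M i w ≠ w := by rw [e]; exact h1.1.ne
      have e2 := hM3 i hi' w e1 (by rw [e]; exact h1.2.symm)
      rw [e, Sym2.eq_swap] at e2
      omega
  · intro v
    have := CKP_E0d (innerG G A) c' k (d + 1) hc' v
    rw [hk2] at this
    exact this
  · rw [← hn]
    refine hres (X ∩ A) Finset.inter_subset_left ?_ s3
    intro v hv w hw
    have h1 := Finset.mem_inter.1 hv
    exact Finset.mem_inter.2 ⟨(hG.onX v w hw.1).2, hw.2.1 h1.2⟩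
  · rw [← hn]
    refine hres (X \ A) Finset.sdiff_subset ?_ s4
    intro v hv w hw
    have h1 := Finset.mem_sdiff.1 hv
    exact Finset.mem_sdiff.2 ⟨(hG.onX v w hw.1).2, fun h' => h1.2 (hw.2.2 h')⟩

end

end Pool.Agent.OF
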